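import Pool.Agent.R25.Med.Defs

set_option autoImplicit false

namespace Pool.Agent.R25.Med

/-- The 32 regions of the simplicial arrangement `A(7,1)` (the seven planes of `ℝ³` whose normals
are the nonzero 0/1 vectors), as sign vectors, written as 7-bit numbers. -/
def code : Fin 32 → ℕ :=
  ![0, 1, 2, 4, 9, 10, 11, 17, 20, 21, 25, 34, 36, 38, 42, 52, 75, 85, 89, 91, 93, 102, 106, 107,
    110, 116, 117, 118, 123, 125, 126, 127]

/-- Number of nonzero binary digits of a 7-bit number. -/
def digits (n : ℕ) : ℕ :=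
  n % 2 + n / 2 % 2 + n / 4 % 2 + n / 8 % 2 + n / 16 % 2 + n / 32 % 2 + n / 64 % 2

/-- The number of planes separating two regions. -/
def dd (a b : Fin 32) : ℕ := digits (code a ^^^ code b)

/-- The tope graph: two regions are adjacent if exactly one plane separates them. -/
def topeGraph : SimpleGraph (Fin 32) where
  Adj a b := dd a b = 1
  symm := ⟨by decide +kernel⟩
  loopless := ⟨by decide +kernel⟩


lemma adj_iff (a b : Fin 32) : topeGraph.Adj a b ↔ dd a b = 1 := Iff.rfl

instance : DecidableRel topeGraph.Adj := fun a b => inferInstanceAs (Decidable (dd a b = 1))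

lemma dd_comm (a b : Fin 32) : dd a b = dd b a := by
  unfold dd
  rw [Nat.xor_comm]

lemma dd_self : ∀ a : Fin 32, dd a a = 0 := by decide +kernel

lemma dd_eq_zero : ∀ a b : Fin 32, dd a b = 0 → a = b := by decide +kernel

lemma dd_step : ∀ a b : Fin 32, dd a b = 1 → ∀ c, dd c b ≤ dd c a + 1 := by decide +kernel

lemma dd_down : ∀ a b : Fin 32, dd a b ≠ 0 → ∃ c, dd c b = 1 ∧ dd a c + 1 = dd a b := by
  decide +kernel

lemma exists_walk (n : ℕ) : ∀ a b : Fin 32, dd a b = n → ∃ p : topeGraph.Walk a b, p.length = n := by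
  induction n with
  | zero =>
    intro a b h
    obtain rfl := dd_eq_zero a b h
    exact ⟨SimpleGraph.Walk.nil, rfl⟩
  | succ n ih =>
    intro a b h
    obtain ⟨c, hc, hc'⟩ := dd_down a b (by omega)
    obtain ⟨p, hp⟩ := ih a c (by omega)
    have hadj : topeGraph.Adj c b := hc
    refine ⟨p.concat hadj, ?_⟩
    rw [SimpleGraph.Walk.length_concat, hp]

lemma dd_le_length {a b : Fin 32} (p : topeGraph.Walk a b) (c : Fin 32) :
    dd c b ≤ dd c a + p.length := by
  induction p with
  | nil => simp
  | cons h p ih =>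
    have := dd_step _ _ h c
    rw [SimpleGraph.Walk.length_cons]
    omega

lemma edist_eq (a b : Fin 32) : topeGraph.edist a b = (dd a b : ℕ∞) := by
  obtain ⟨p, hp⟩ := exists_walk (dd a b) a b rfl
  refine le_antisymm ?_ ?_
  · rw [← hp]
    exact p.edist_le
  · rw [SimpleGraph.edist_eq_sInf]
    refine le_sInf ?_
    rintro _ ⟨q, rfl⟩
    have := dd_le_length q a
    rw [dd_self, zero_add] at this
    show (dd a b : ℕ∞) ≤ (q.length : ℕ∞)
    exact_mod_cast this

lemma connected : topeGraph.Connected := by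
  have : Nonempty (Fin 32) := ⟨0⟩
  refine ⟨fun a b => ?_⟩
  obtain ⟨p, _⟩ := exists_walk (dd a b) a b rfl
  exact ⟨p⟩

lemma mem_interval (x y z : Fin 32) :
    z ∈ interval topeGraph x y ↔ dd x y = dd x z + dd z y := by
  show topeGraph.edist x y = topeGraph.edist x z + topeGraph.edist z y ↔ _
  rw [edist_eq, edist_eq, edist_eq]
  exact_mod_cast Iff.rfl

end Pool.Agent.R25.Med
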