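import Pool.Agent.R25.Med.Cyc

set_option autoImplicit false

namespace Pool.Agent.R25.Med

def mask : Fin 18 → ℕ := ![1170, 18468, 37128, 277413888, 605159424, 1226833920, 119, 907, 14349, 853072, 12664928, 1443456, 100827904, 23095296, 169914368, 2954625024, 3519021056, 3992977408]

set_option synthInstance.maxHeartbeats 400000 in
set_option synthInstance.maxSize 1000 in
lemma mask_spec : ∀ x a : Fin 32, dd x a = 1 → ∀ b : Fin 32, dd x b = 1 → a ≠ b →
    ∀ y : Fin 32, dd x y = dd x a + dd a y → dd x y = dd x b + dd b y →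
    (∀ z : Fin 32, dd x y = dd x z + dd z y →
      ∃ w : Fin 32, dd z w = 1 ∧ dd x y ≠ dd x w + dd w y) →
    ∃ t : Fin 18, ∀ z : Fin 32, (mask t).testBit z.val = true ↔ dd x y = dd x z + dd z y := by
  simp only [dd_fast]
  decide +kernel

lemma mask_meet : ∀ t t' : Fin 18, t ≠ t' → ∀ p : Fin 32, (mask t).testBit p.val = true →
    (mask t').testBit p.val = true → ∀ q : Fin 32, (mask t).testBit q.val = true →
    (mask t').testBit q.val = true → p ≠ q → ∀ r : Fin 32, (mask t).testBit r.val = true →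
    (mask t').testBit r.val = true → p ≠ r → q = r := by
  decide +kernel

lemma corner : ∀ z x : Fin 32, dd x z = 1 → ∀ y : Fin 32, dd y z = 1 → x ≠ y →
    (∃ t s e, cy4 t s e 0 = z ∧ cy4 t s e 1 = x ∧ cy4 t s e 3 = y ∧
      ∀ o : Fin 32, dd o x + 1 = dd o z → dd o y + 1 = dd o z →
        dd o x = dd o (cy4 t s e 2) + dd (cy4 t s e 2) x ∧
        dd o y = dd o (cy4 t s e 2) + dd (cy4 t s e 2) y) ∨
    (∃ t s e, cy6 t s e 0 = z ∧ cy6 t s e 1 = x ∧ cy6 t s e 5 = y ∧
      ∀ o : Fin 32, dd o x + 1 = dd o z → dd o y + 1 = dd o z →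
        dd o x = dd o (cy6 t s e 3) + dd (cy6 t s e 3) x ∧
        dd o y = dd o (cy6 t s e 3) + dd (cy6 t s e 3) y) := by
  simp only [dd_fast]
  decide +kernel

def cf (a : ℕ) : ℕ := (26958275042726526891346804182544186806893502556096296405218420097152 >>> (7 * a)) % 128

lemma code_fast : ∀ a : Fin 32, code a = cf a.val := by decide +kernel

def repA : Fin 7 → Fin 32 := ![0, 0, 0, 1, 1, 2, 6]

def repB : Fin 7 → Fin 32 := ![1, 2, 3, 4, 7, 11, 16]

lemma toRep : ∀ i : Fin 7, ∀ a b : Fin 32, code a ^^^ code b = 2 ^ i.val → code a < code b →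
    (a = repA i ∧ b = repB i) ∨
    (∃ t s e, cy4 t s e 0 = a ∧ cy4 t s e 1 = b ∧
      code (cy4 t s e 3) ^^^ code (cy4 t s e 2) = 2 ^ i.val ∧
      code (cy4 t s e 3) < code (cy4 t s e 2) ∧
      dd (cy4 t s e 3) (repA i) < dd a (repA i)) ∨
    (∃ t s e, cy6 t s e 0 = a ∧ cy6 t s e 1 = b ∧
      code (cy6 t s e 4) ^^^ code (cy6 t s e 3) = 2 ^ i.val ∧
      code (cy6 t s e 4) < code (cy6 t s e 3) ∧
      dd (cy6 t s e 4) (repA i) < dd a (repA i)) := by
  simp only [dd_fast, code_fast]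
  decide +kernel

lemma trans_dir : ∀ i j : Fin 7, i ≠ j →
    (∃ t s e, code (cy4 t s e 0) ^^^ code (cy4 t s e 1) = 2 ^ i.val ∧
      code (cy4 t s e 1) ^^^ code (cy4 t s e 2) = 2 ^ j.val) ∨
    (∃ t s e, code (cy6 t s e 0) ^^^ code (cy6 t s e 1) = 2 ^ i.val ∧
      code (cy6 t s e 1) ^^^ code (cy6 t s e 2) = 2 ^ j.val) := by
  simp only [code_fast]
  decide +kernel

lemma exists_dir : ∀ a b : Fin 32, dd a b = 1 → ∃ i : Fin 7, code a ^^^ code b = 2 ^ i.val ∧
    (code a < code b ∨ code b < code a) := by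
  simp only [dd_fast, code_fast]
  decide +kernel

end Pool.Agent.R25.Med
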