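import Pool.Agent.R25.Med.Defs
import Pool.Agent.Helper703.KL.Cox

set_option autoImplicit false

namespace Pool.Agent.R25.Med

open CoxeterSystem

variable {B W : Type*} [Group W] {M : CoxeterMatrix B} (cs : CoxeterSystem M W)

lemma len_two_even (a b : B) : cs.length (cs.simple a * cs.simple b) % 2 = 0 := by
  rw [cs.length_mul_mod_two, cs.length_simple, cs.length_simple]

lemma len_three_odd (a b c : B) :
    cs.length (cs.simple a * cs.simple b * cs.simple c) % 2 = 1 := by
  rw [cs.length_mul_mod_two, cs.length_simple]
  have := len_two_even cs a b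
  omega

lemma len_two_le (a b : B) : cs.length (cs.simple a * cs.simple b) ≤ 2 := by
  have := cs.length_mul_le (cs.simple a) (cs.simple b)
  rw [cs.length_simple, cs.length_simple] at this
  exact this

lemma len_three_le (a b c : B) :
    cs.length (cs.simple a * cs.simple b * cs.simple c) ≤ 3 := by
  have := cs.length_mul_le (cs.simple a * cs.simple b) (cs.simple c)
  rw [cs.length_simple] at this
  have := len_two_le cs a b
  omega

lemma cox_hex (a a' a'' b b' b'' : B)
    (h : cs.simple a * cs.simple a' * cs.simple a'' = cs.simple b * cs.simple b' * cs.simple b'')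
    (hab : cs.simple a ≠ cs.simple b)
    (h1 : ∀ d, cs.simple a * cs.simple a' * cs.simple a'' ≠ cs.simple d) :
    ∃ x, cs.simple a * cs.simple a' * cs.simple a'' = cs.simple b * cs.simple a * cs.simple x := by
  have hodd := len_three_odd cs a a' a''
  have hle := len_three_le cs a a' a''
  have hne1 : cs.length (cs.simple a * cs.simple a' * cs.simple a'') ≠ 1 := by
    intro h2
    rw [cs.length_eq_one_iff] at h2
    obtain ⟨d, hd⟩ := h2
    exact h1 d hd
  have hlen : cs.length (cs.simple a * cs.simple a' * cs.simple a'') = 3 := by omega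
  have hword : cs.wordProd [a, a', a''] = cs.simple a * cs.simple a' * cs.simple a'' := by
    simp [CoxeterSystem.wordProd, mul_assoc]
  have hdesc : cs.length (cs.simple b * cs.wordProd [a, a', a'']) <
      cs.length (cs.wordProd [a, a', a'']) := by
    rw [hword, hlen, h]
    have h2 : cs.simple b * (cs.simple b * cs.simple b' * cs.simple b'') =
        cs.simple b' * cs.simple b'' := by
      rw [mul_assoc (cs.simple b), cs.simple_mul_simple_cancel_left]
    rw [h2]
    have := len_two_le cs b' b''
    omega
  obtain ⟨j, hj, hj'⟩ := Pool.Agent.Helper703.Cox.exchange cs [a, a', a''] b hdesc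
  rw [hword] at hj'
  have hu : cs.simple a * cs.simple a' * cs.simple a'' =
      cs.simple b * cs.wordProd ([a, a', a''].eraseIdx j) := by
    rw [← hj', cs.simple_mul_simple_cancel_left]
  have hj3 : j < 3 := hj
  interval_cases j
  · exfalso
    apply hab
    have h2 : cs.wordProd ([a, a', a''].eraseIdx 0) = cs.simple a' * cs.simple a'' := by
      simp [CoxeterSystem.wordProd]
    rw [h2, mul_assoc] at hu
    exact mul_right_cancel hu
  · refine ⟨a'', ?_⟩
    have h2 : cs.wordProd ([a, a', a''].eraseIdx 1) = cs.simple a * cs.simple a'' := by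
      simp [CoxeterSystem.wordProd]
    rw [hu, h2, mul_assoc]
  · refine ⟨a', ?_⟩
    have h2 : cs.wordProd ([a, a', a''].eraseIdx 2) = cs.simple a * cs.simple a' := by
      simp [CoxeterSystem.wordProd]
    rw [hu, h2, mul_assoc]

lemma cox_sq_aux (a a' b b' : B)
    (h : cs.simple a * cs.simple a' = cs.simple b * cs.simple b')
    (hab : cs.simple a ≠ cs.simple b) (h1 : cs.simple a * cs.simple a' ≠ 1) :
    cs.simple a * cs.simple a' = cs.simple b * cs.simple a := by
  have heven := len_two_even cs a a'
  have hle := len_two_le cs a a'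
  have hne0 : cs.length (cs.simple a * cs.simple a') ≠ 0 := by
    intro h2
    rw [cs.length_eq_zero_iff] at h2
    exact h1 h2
  have hlen : cs.length (cs.simple a * cs.simple a') = 2 := by omega
  have hword : cs.wordProd [a, a'] = cs.simple a * cs.simple a' := by
    simp [CoxeterSystem.wordProd]
  have hdesc : cs.length (cs.simple b * cs.wordProd [a, a']) <
      cs.length (cs.wordProd [a, a']) := by
    rw [hword, hlen, h, cs.simple_mul_simple_cancel_left, cs.length_simple]
    omega
  obtain ⟨j, hj, hj'⟩ := Pool.Agent.Helper703.Cox.exchange cs [a, a'] b hdesc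
  rw [hword] at hj'
  have hu : cs.simple a * cs.simple a' =
      cs.simple b * cs.wordProd ([a, a'].eraseIdx j) := by
    rw [← hj', cs.simple_mul_simple_cancel_left]
  have hj3 : j < 2 := hj
  interval_cases j
  · exfalso
    apply hab
    have h2 : cs.wordProd ([a, a'].eraseIdx 0) = cs.simple a' := by
      simp [CoxeterSystem.wordProd]
    rw [h2] at hu
    exact mul_right_cancel hu
  · have h2 : cs.wordProd ([a, a'].eraseIdx 1) = cs.simple a := by
      simp [CoxeterSystem.wordProd]
    rw [hu, h2]

lemma cox_sq (a a' b b' : B)
    (h : cs.simple a * cs.simple a' = cs.simple b * cs.simple b')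
    (hab : cs.simple a ≠ cs.simple b) (h1 : cs.simple a * cs.simple a' ≠ 1) :
    cs.simple a * cs.simple b = cs.simple b * cs.simple a := by
  have h2 := cox_sq_aux cs a a' b b' h hab h1
  have h3 := cox_sq_aux cs b b' a a' h.symm (Ne.symm hab) (by rwa [← h])
  rw [← h3, ← h, h2]

end Pool.Agent.R25.Med
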