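import Pool.Agent.R25.Med.Fast

set_option autoImplicit false

namespace Pool.Agent.R25.Med

lemma dd_tri (a b c : Fin 32) : dd a b ≤ dd a c + dd c b := by
  have h := topeGraph.edist_triangle (u := a) (v := c) (w := b)
  rw [edist_eq, edist_eq, edist_eq] at h
  exact_mod_cast h

section geod

variable {k : ℕ} {c : ZMod (2 * k) → Fin 32} (h : IsConvexEvenCycle topeGraph k c)
include h

lemma adj_succ (i : ZMod (2 * k)) : dd (c i) (c (i + 1)) = 1 :=
  (h.adj_iff i (i + 1)).2 (Or.inl rfl)

lemma dd_fwd (i : ZMod (2 * k)) (n : ℕ) : dd (c i) (c (i + n)) ≤ n := by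
  induction n with
  | zero => simp [dd_self]
  | succ n ih =>
    have h1 := dd_step _ _ (adj_succ h (i + n)) (c i)
    have h2 : i + ((n + 1 : ℕ) : ZMod (2 * k)) = i + n + 1 := by push_cast; ring
    rw [h2]
    omega

lemma val_succ (j : ZMod (2 * k)) :
    (j + 1).val = j.val + 1 ∨ ((j + 1).val = 0 ∧ j.val + 1 = 2 * k) := by
  have hk := h.two_le
  have : NeZero (2 * k) := ⟨by omega⟩
  have hlt := j.val_lt
  have h1 : (1 : ZMod (2 * k)).val = 1 := ZMod.val_one'' (by omega)
  rw [ZMod.val_add, h1]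
  rcases Nat.lt_or_ge (j.val + 1) (2 * k) with h2 | h2
  · left
    exact Nat.mod_eq_of_lt h2
  · right
    have h3 : j.val + 1 = 2 * k := by omega
    rw [h3]
    exact ⟨Nat.mod_self _, rfl⟩

lemma g_le (n : ℕ) : ∀ i : ZMod (2 * k), dd (c 0) (c i) = n → min i.val (2 * k - i.val) ≤ n := by
  have hk := h.two_le
  have : NeZero (2 * k) := ⟨by omega⟩
  induction n with
  | zero =>
    intro i hi
    have h1 := h.inj (dd_eq_zero _ _ hi)
    rw [← h1, ZMod.val_zero]
    omega
  | succ n ih =>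
    intro i hi
    obtain ⟨z, hz, hz'⟩ := dd_down (c 0) (c i) (by omega)
    have h1 : z ∈ interval topeGraph (c 0) (c i) := by
      rw [mem_interval]
      omega
    obtain ⟨j, rfl⟩ := h.convex (c 0) ⟨0, rfl⟩ (c i) ⟨i, rfl⟩ h1
    have h2 := ih j (by omega)
    have hj := j.val_lt
    have hi' := i.val_lt
    rcases (h.adj_iff j i).1 hz with h3 | h3
    · subst h3
      rcases val_succ h j with h4 | ⟨h4, h5⟩ <;> omega
    · subst h3
      rcases val_succ h i with h4 | ⟨h4, h5⟩ <;> omega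

lemma val_k : ((k : ℕ) : ZMod (2 * k)).val = k := by
  have hk := h.two_le
  exact ZMod.val_natCast_of_lt (by omega)

lemma dd_zero_k : dd (c 0) (c k) = k := by
  have hk := h.two_le
  have h1 := g_le h _ (k : ZMod (2 * k)) rfl
  rw [val_k h] at h1
  have h2 := dd_fwd h 0 k
  rw [zero_add] at h2
  omega

lemma mem_range_iff (z : Fin 32) :
    z ∈ Set.range c ↔ dd (c 0) (c k) = dd (c 0) z + dd z (c k) := by
  have hk := h.two_le
  have : NeZero (2 * k) := ⟨by omega⟩
  constructor
  · rintro ⟨i, rfl⟩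
    have h0 := dd_zero_k h
    have h1 := dd_tri (c 0) (c k) (c i)
    have hv := i.val_lt
    have hi : ((i.val : ℕ) : ZMod (2 * k)) = i := ZMod.natCast_zmod_val i
    rcases Nat.le_total i.val k with h2 | h2
    · have h3 := dd_fwd h 0 i.val
      rw [zero_add, hi] at h3
      have h4 := dd_fwd h i (k - i.val)
      have h5 : i + ((k - i.val : ℕ) : ZMod (2 * k)) = k := by
        rw [Nat.cast_sub h2, hi]
        ring
      rw [h5] at h4
      omega
    · have h3 := dd_fwd h i (2 * k - i.val)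
      have h5 : i + ((2 * k - i.val : ℕ) : ZMod (2 * k)) = 0 := by
        rw [Nat.cast_sub hv.le, hi, ZMod.natCast_self]
        ring
      rw [h5, dd_comm] at h3
      have h4 := dd_fwd h k (i.val - k)
      have h6 : (k : ZMod (2 * k)) + ((i.val - k : ℕ) : ZMod (2 * k)) = i := by
        rw [Nat.cast_sub h2, hi]
        ring
      rw [h6, dd_comm] at h4
      omega
  · intro hz
    exact h.convex (c 0) ⟨0, rfl⟩ (c k) ⟨k, rfl⟩ ((mem_interval _ _ _).2 hz)

lemma mem_cycleEdges (a b : Fin 32) :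
    s(a, b) ∈ cycleEdges c ↔ dd a b = 1 ∧ a ∈ Set.range c ∧ b ∈ Set.range c := by
  constructor
  · rintro ⟨i, hi⟩
    have hi' : s(c i, c (i + 1)) = s(a, b) := hi
    rw [Sym2.eq_iff] at hi'
    rcases hi' with ⟨rfl, rfl⟩ | ⟨rfl, rfl⟩
    · exact ⟨adj_succ h i, ⟨i, rfl⟩, ⟨i + 1, rfl⟩⟩
    · refine ⟨?_, ⟨i + 1, rfl⟩, ⟨i, rfl⟩⟩
      rw [dd_comm]
      exact adj_succ h i
  · rintro ⟨hab, ⟨i, rfl⟩, ⟨j, rfl⟩⟩
    rcases (h.adj_iff i j).1 hab with rfl | rfl
    · exact ⟨i, rfl⟩
    · exact ⟨j, Sym2.eq_swap⟩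

end geod

/-- Rotating a convex even cycle. -/
lemma rot {V : Type*} {G : SimpleGraph V} {k : ℕ} {c : ZMod (2 * k) → V}
    (h : IsConvexEvenCycle G k c) (s : ZMod (2 * k)) :
    IsConvexEvenCycle G k (fun i => c (s + i)) where
  two_le := h.two_le
  inj := fun i j hij => add_left_cancel (h.inj hij)
  adj_iff i j := by
    rw [h.adj_iff]
    constructor
    · rintro (h1 | h1)
      · left
        exact add_left_cancel (a := s) (by rw [h1]; ring)
      · right
        exact add_left_cancel (a := s) (by rw [h1]; ring)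
    · rintro (h1 | h1)
      · left; rw [h1]; ring
      · right; rw [h1]; ring
  convex := by
    have h1 : Set.range (fun i => c (s + i)) = Set.range c := by
      ext v
      constructor
      · rintro ⟨i, rfl⟩
        exact ⟨s + i, rfl⟩
      · rintro ⟨i, rfl⟩
        exact ⟨i - s, by show c (s + (i - s)) = c i; congr 1; ring⟩
    rw [h1]
    exact h.convex

/-- Reflecting a convex even cycle. -/
lemma refl' {V : Type*} {G : SimpleGraph V} {k : ℕ} {c : ZMod (2 * k) → V}
    (h : IsConvexEvenCycle G k c) (s : ZMod (2 * k)) :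
    IsConvexEvenCycle G k (fun i => c (s - i)) where
  two_le := h.two_le
  inj := fun i j hij => by
    have := h.inj hij
    exact sub_right_injective this
  adj_iff i j := by
    rw [h.adj_iff]
    constructor
    · rintro (h1 | h1)
      · right
        have : j = s - (s - j) := by ring
        rw [this, h1]
        ring
      · left
        have : i = s - (s - i) := by ring
        rw [this, h1]
        ring
    · rintro (h1 | h1)
      · right; rw [h1]; ring
      · left; rw [h1]; ring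
  convex := by
    have h1 : Set.range (fun i => c (s - i)) = Set.range c := by
      ext v
      constructor
      · rintro ⟨i, rfl⟩
        exact ⟨s - i, rfl⟩
      · rintro ⟨i, rfl⟩
        exact ⟨s - i, by show c (s - (s - i)) = c i; congr 1; ring⟩
    rw [h1]
    exact h.convex

def base4 : Fin 6 → Fin 4 → Fin 32 :=
  ![![1, 4, 10, 7], ![2, 5, 14, 11], ![3, 8, 15, 12], ![16, 19, 28, 23], ![17, 20, 29, 26],
    ![21, 24, 30, 27]]

def base6 : Fin 12 → Fin 6 → Fin 32 :=
  ![![0, 1, 4, 6, 5, 2], ![0, 1, 7, 9, 8, 3], ![0, 2, 11, 13, 12, 3], ![4, 6, 16, 19, 18, 10],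
    ![5, 6, 16, 23, 22, 14], ![7, 9, 17, 20, 18, 10], ![8, 9, 17, 26, 25, 15],
    ![11, 13, 21, 24, 22, 14], ![12, 13, 21, 27, 25, 15], ![18, 19, 28, 31, 29, 20],
    ![22, 23, 28, 31, 30, 24], ![25, 26, 29, 31, 30, 27]]

def cy4 (t : Fin 6) (s : Fin 4) (e : Bool) : Fin 4 → Fin 32 :=
  bif e then fun i => base4 t (s + i) else fun i => base4 t (s - i)

def cy6 (t : Fin 12) (s : Fin 6) (e : Bool) : Fin 6 → Fin 32 :=
  bif e then fun i => base6 t (s + i) else fun i => base6 t (s - i)

lemma v1 : ∀ t i j, base4 t i = base4 t j → i = j := by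
  decide +kernel

lemma v2 : ∀ t i j, dd (base4 t i) (base4 t j) = 1 ↔ (j = i + 1 ∨ i = j + 1) := by
  simp only [dd_fast]
  decide +kernel

lemma v3 : ∀ t i j v, dd (base4 t i) (base4 t j) = dd (base4 t i) v + dd v (base4 t j) →
    ∃ m, base4 t m = v := by
  simp only [dd_fast]
  decide +kernel

lemma w1 : ∀ t i j, base6 t i = base6 t j → i = j := by
  decide +kernel

lemma w2 : ∀ t i j, dd (base6 t i) (base6 t j) = 1 ↔ (j = i + 1 ∨ i = j + 1) := by
  simp only [dd_fast]
  decide +kernel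

lemma w3 : ∀ t i j v, dd (base6 t i) (base6 t j) = dd (base6 t i) v + dd v (base6 t j) →
    ∃ m, base6 t m = v := by
  simp only [dd_fast]
  decide +kernel

/-- A four-cycle as a cycle indexed by `ZMod (2 * 2)`. -/
def toC4 (f : Fin 4 → Fin 32) : ZMod (2 * 2) → Fin 32 := f

/-- A six-cycle as a cycle indexed by `ZMod (2 * 3)`. -/
def toC6 (f : Fin 6 → Fin 32) : ZMod (2 * 3) → Fin 32 := f

lemma base4_cycle (t : Fin 6) : IsConvexEvenCycle topeGraph 2 (toC4 (base4 t)) where
  two_le := le_refl 2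
  inj := fun i j h => v1 t i j h
  adj_iff := fun i j => v2 t i j
  convex := by
    rintro _ ⟨i, rfl⟩ _ ⟨j, rfl⟩ v hv
    rw [mem_interval] at hv
    obtain ⟨m, hm⟩ := v3 t i j v hv
    exact ⟨m, hm⟩

lemma base6_cycle (t : Fin 12) : IsConvexEvenCycle topeGraph 3 (toC6 (base6 t)) where
  two_le := by omega
  inj := fun i j h => w1 t i j h
  adj_iff := fun i j => w2 t i j
  convex := by
    rintro _ ⟨i, rfl⟩ _ ⟨j, rfl⟩ v hv
    rw [mem_interval] at hv
    obtain ⟨m, hm⟩ := w3 t i j v hv
    exact ⟨m, hm⟩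

lemma cy4_cycle (t : Fin 6) (s : Fin 4) (e : Bool) :
    IsConvexEvenCycle topeGraph 2 (toC4 (cy4 t s e)) := by
  cases e with
  | true => exact rot (base4_cycle t) s
  | false => exact refl' (base4_cycle t) s

lemma cy6_cycle (t : Fin 12) (s : Fin 6) (e : Bool) :
    IsConvexEvenCycle topeGraph 3 (toC6 (cy6 t s e)) := by
  cases e with
  | true => exact rot (base6_cycle t) s
  | false => exact refl' (base6_cycle t) s

end Pool.Agent.R25.Med
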