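import Mathlib

set_option autoImplicit false

namespace Pool.Agent.R25.Med

/-- The interval `I(x,y)` of a graph: all `z` with `d(x,y) = d(x,z) + d(z,y)`
(path metric with value infinity between different components). -/
def interval {V : Type*} (G : SimpleGraph V) (x y : V) : Set V :=
  {z | G.edist x y = G.edist x z + G.edist z y}

/-- A vertex set is convex if it contains the interval of any two of its members. -/
def IsConvexSet {V : Type*} (G : SimpleGraph V) (S : Set V) : Prop :=
  ∀ x ∈ S, ∀ y ∈ S, interval G x y ⊆ S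

/-- A vertex set is gated if every vertex `x` has a gate `y` in it. -/
def IsGated {V : Type*} (G : SimpleGraph V) (Y : Set V) : Prop :=
  ∀ x, ∃ y ∈ Y, ∀ z ∈ Y, y ∈ interval G x z

/-- `c 0, c 1, ..., c (2k-1)` is a convex cycle of even length `2k ≥ 4`: the vertices are distinct,
the induced subgraph on them is the cycle, and the vertex set is convex. -/
structure IsConvexEvenCycle {V : Type*} (G : SimpleGraph V) (k : ℕ) (c : ZMod (2 * k) → V) :
    Prop where
  two_le : 2 ≤ k
  inj : Function.Injective c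
  adj_iff : ∀ i j, G.Adj (c i) (c j) ↔ (j = i + 1 ∨ i = j + 1)
  convex : IsConvexSet G (Set.range c)

/-- The set of edges of a cycle. -/
def cycleEdges {V : Type*} {k : ℕ} (c : ZMod (2 * k) → V) : Set (Sym2 V) :=
  Set.range fun i => s(c i, c (i + 1))

/-- Mediangle graphs. -/
structure IsMediangle {V : Type*} (G : SimpleGraph V) : Prop where
  connected : G.Connected
  /-- Triangle condition. -/
  triangle : ∀ o x y, G.edist o x = G.edist o y → G.Adj x y →
    ∃ z, G.Adj z x ∧ G.Adj z y ∧ z ∈ interval G o x ∧ z ∈ interval G o y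
  /-- No induced `K_4` minus an edge. -/
  no_K4_minus : ¬ ∃ a b c d, a ≠ b ∧ ¬ G.Adj a b ∧ G.Adj a c ∧ G.Adj a d ∧ G.Adj b c ∧ G.Adj b d ∧
    G.Adj c d
  /-- Cycle condition (the two neighbours `x`, `y` of `z` are distinct). -/
  cycle : ∀ o x y z, x ≠ y → G.edist o x + 1 = G.edist o z → G.edist o y + 1 = G.edist o z →
    G.Adj x z → G.Adj y z → ∃ (k : ℕ) (c : ZMod (2 * k) → V), IsConvexEvenCycle G k c ∧
      c 0 = z ∧ c 1 = x ∧ c (-1) = y ∧ c k ∈ interval G o x ∧ c k ∈ interval G o y
  /-- Distinct convex even cycles share at most one edge. -/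
  cycles_meet : ∀ (k : ℕ) (c : ZMod (2 * k) → V) (k' : ℕ) (c' : ZMod (2 * k') → V),
    IsConvexEvenCycle G k c → IsConvexEvenCycle G k' c' → cycleEdges c ≠ cycleEdges c' →
      (cycleEdges c ∩ cycleEdges c').Subsingleton

/-- Generating relation for hyperplanes: two edges of a common triangle, or two opposite edges of a
convex even cycle. -/
def HypStep {V : Type*} (G : SimpleGraph V) (e e' : Sym2 V) : Prop :=
  (∃ a b c, G.Adj a b ∧ G.Adj b c ∧ G.Adj a c ∧ e = s(a, b) ∧ e' = s(b, c)) ∨
  (∃ (k : ℕ) (c : ZMod (2 * k) → V), IsConvexEvenCycle G k c ∧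
    ∃ i, e = s(c i, c (i + 1)) ∧ e' = s(c (i + k), c (i + k + 1)))

/-- The hyperplane of an edge: its class for the equivalence relation generated by `HypStep`. -/
def hyperplane {V : Type*} (G : SimpleGraph V) (e : Sym2 V) : Set (Sym2 V) :=
  {e' | e' ∈ G.edgeSet ∧ Relation.EqvGen (HypStep G) e e'}

/-- The hyperplanes of the subgraph induced on `Y`. -/
def hyperplanesOf {V : Type*} (G : SimpleGraph V) (Y : Set V) : Set (Set (Sym2 V)) :=
  {J | ∃ a ∈ Y, ∃ b ∈ Y, G.Adj a b ∧ J = hyperplane G s(a, b)}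

/-- Some edge of `J₁` and some edge of `J₂` are consecutive edges of a convex even cycle. -/
def Transverse {V : Type*} (G : SimpleGraph V) (J₁ J₂ : Set (Sym2 V)) : Prop :=
  ∃ (k : ℕ) (c : ZMod (2 * k) → V), IsConvexEvenCycle G k c ∧
    ∃ i, (s(c i, c (i + 1)) ∈ J₁ ∧ s(c (i + 1), c (i + 2)) ∈ J₂) ∨
      (s(c i, c (i + 1)) ∈ J₂ ∧ s(c (i + 1), c (i + 2)) ∈ J₁)

/-- A monolith: a gated vertex set whose hyperplanes are pairwise transverse. -/
def IsMonolith {V : Type*} (G : SimpleGraph V) (Y : Set V) : Prop :=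
  IsGated G Y ∧ ∀ J₁ ∈ hyperplanesOf G Y, ∀ J₂ ∈ hyperplanesOf G Y, J₁ ≠ J₂ → Transverse G J₁ J₂

/-- The Cartesian product of a family of graphs: two vertices are adjacent if they differ in
exactly one coordinate and are adjacent there. -/
def cartProd {ι : Type*} {P : ι → Type*} (G : ∀ i, SimpleGraph (P i)) :
    SimpleGraph (∀ i, P i) where
  Adj x y := ∃ i, (G i).Adj (x i) (y i) ∧ ∀ j, j ≠ i → x j = y j
  symm := ⟨fun _ _ ⟨i, h, h'⟩ => ⟨i, h.symm, fun j hj => (h' j hj).symm⟩⟩
  loopless := ⟨fun _ ⟨i, h, _⟩ => (G i).irrefl h⟩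

/-- The Cayley graph of a Coxeter system for the simple reflections: `a` and `b` are adjacent if
`b = a s` with `s` a simple reflection. -/
def coxeterGraph {B W : Type*} [Group W] {M : CoxeterMatrix B} (cs : CoxeterSystem M W) :
    SimpleGraph W where
  Adj a b := ∃ i, b = a * cs.simple i
  symm := ⟨fun a b ⟨i, h⟩ => ⟨i, by rw [h, mul_assoc, cs.simple_mul_simple_self, mul_one]⟩⟩
  loopless := ⟨fun a ⟨i, h⟩ => by
    have h1 : cs.simple i = 1 := by
      have := h.symm
      rwa [mul_eq_left] at this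
    have h2 := cs.length_simple i
    rw [h1, cs.length_one] at h2
    omega⟩

/-- A finite Coxeter graph: isomorphic to the Cayley graph of a finite Coxeter group. -/
def IsFiniteCoxeterGraph.{v, w} {V : Type v} (G : SimpleGraph V) : Prop :=
  ∃ (B : Type w) (M : CoxeterMatrix B) (W : Type v) (_ : Group W) (cs : CoxeterSystem M W),
    Finite W ∧ Nonempty (G ≃g coxeterGraph cs)

end Pool.Agent.R25.Med
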