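import Pool.Agent.R25.Med.Mono
import Pool.Agent.R25.Med.Cox

set_option autoImplicit false

namespace Pool.Agent.R25.Med

/-- A closed six-cycle in the tope graph, without shortcuts. -/
def Hex (c0 c1 c2 c3 c4 c5 : Fin 32) : Prop :=
  (dd c0 c1 = 1 ∧ dd c1 c2 = 1 ∧ dd c2 c3 = 1 ∧ dd c5 c0 = 1 ∧ dd c4 c5 = 1 ∧ dd c3 c4 = 1) ∧
  (c1 ≠ c5 ∧ dd c0 c3 ≠ 1 ∧ c0 ≠ c3 ∧ dd c5 c3 ≠ 1 ∧ c5 ≠ c3 ∧ c0 ≠ c2 ∧ c1 ≠ c3 ∧ c2 ≠ c4 ∧
    c4 ≠ c0) ∧
  (∀ w, dd w c1 = 1 → dd w c5 = 1 → w = c0) ∧
  (∀ w, dd w c0 = 1 → dd w c2 = 1 → w = c1) ∧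
  (∀ w, dd w c1 = 1 → dd w c3 = 1 → w = c2) ∧
  (∀ w, dd w c2 = 1 → dd w c4 = 1 → w = c3) ∧
  (∀ w, dd w c3 = 1 → dd w c5 = 1 → w = c4)

instance (c0 c1 c2 c3 c4 c5 : Fin 32) : Decidable (Hex c0 c1 c2 c3 c4 c5) := by
  unfold Hex
  infer_instance

section emb

variable {ι : Type*} {P : ι → Type*} {G : ∀ i, SimpleGraph (P i)} {f : Fin 32 → ∀ i, P i}

/-- The embedded tope graph has an edge `a b` in direction `i`. -/
def Dir (G : ∀ i, SimpleGraph (P i)) (f : Fin 32 → ∀ i, P i) (i : ι) (a b : Fin 32) : Prop :=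
  (G i).Adj (f a i) (f b i) ∧ ∀ j, j ≠ i → f a j = f b j

lemma Dir.symm {i : ι} {a b : Fin 32} (h : Dir G f i a b) : Dir G f i b a :=
  ⟨h.1.symm, fun j hj => (h.2 j hj).symm⟩

variable (hinj : Function.Injective f)
  (hadj : ∀ a b, (cartProd G).Adj (f a) (f b) ↔ dd a b = 1)
  (hconv : IsConvexSet (cartProd G) (Set.range f))

include hadj in
lemma exists_Dir {a b : Fin 32} (h : dd a b = 1) : ∃ i, Dir G f i a b := (hadj a b).2 h

include hadj in
lemma dd_of_Dir {i : ι} {a b : Fin 32} (h : Dir G f i a b) : dd a b = 1 := (hadj a b).1 ⟨i, h⟩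

include hinj hadj hconv in
/-- Common neighbours in the product of two vertices at distance two lie in the image. -/
lemma common_mem {a b : Fin 32} (hab : a ≠ b) (h1 : dd a b ≠ 1) {r : ∀ i, P i}
    (ha : (cartProd G).Adj (f a) r) (hb : (cartProd G).Adj r (f b)) :
    ∃ z, f z = r ∧ dd z a = 1 ∧ dd z b = 1 := by
  have h2 : (cartProd G).edist (f a) (f b) = 2 := by
    rw [SimpleGraph.edist_eq_two_iff]
    refine ⟨fun h => hab (hinj h), fun h => h1 ((hadj a b).1 h), ⟨r, ?_⟩⟩
    rw [SimpleGraph.mem_commonNeighbors]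
    exact ⟨ha, hb.symm⟩
  have h3 : r ∈ interval (cartProd G) (f a) (f b) := by
    show (cartProd G).edist (f a) (f b) = (cartProd G).edist (f a) r + (cartProd G).edist r (f b)
    rw [h2, SimpleGraph.edist_eq_one_iff_adj.2 ha, SimpleGraph.edist_eq_one_iff_adj.2 hb]
    rfl
  obtain ⟨z, rfl⟩ := hconv (f a) ⟨a, rfl⟩ (f b) ⟨b, rfl⟩ h3
  exact ⟨z, rfl, (hadj z a).1 ha.symm, (hadj z b).1 hb⟩

include hinj hadj hconv in
/-- Consecutive edges with a unique middle vertex have the same direction. -/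
lemma same_dir {v x y : Fin 32} (hv : dd v y = 1) (hxy : x ≠ y)
    (hu : ∀ w, dd w x = 1 → dd w y = 1 → w = v) {i : ι} (hi : Dir G f i v x) :
    Dir G f i v y := by
  classical
  obtain ⟨j, hj⟩ := exists_Dir hadj hv
  by_cases hij : j = i
  · rw [← hij]
    exact hj
  exfalso
  have h1 : dd x y ≠ 1 := by
    intro h
    have := bip x y h v
    rw [hv, dd_of_Dir hadj hi] at this
    exact this rfl
  have ha : (cartProd G).Adj (f x) (Function.update (f x) j (f y j)) := by
    refine ⟨j, ?_, fun k hk => by rw [Function.update_of_ne hk]⟩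
    rw [Function.update_self, ← hi.2 j hij]
    exact hj.1
  have hb : (cartProd G).Adj (Function.update (f x) j (f y j)) (f y) := by
    refine ⟨i, ?_, fun k hk => ?_⟩
    · rw [Function.update_of_ne (Ne.symm hij), ← hj.2 i (Ne.symm hij)]
      exact hi.1.symm
    · by_cases hkj : k = j
      · subst hkj
        rw [Function.update_self]
      · rw [Function.update_of_ne hkj, ← hi.2 k hk, hj.2 k hkj]
  obtain ⟨z, hz, hz1, hz2⟩ := common_mem hinj hadj hconv hxy h1 ha hb
  have h3 := hu z hz1 hz2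
  subst h3
  have h4 : f z j = f y j := by
    rw [hz, Function.update_self]
  exact hj.1.ne h4

include hadj in
/-- The common neighbour of two neighbours in the same direction. -/
lemma square_dir {x y w : Fin 32} (hxw : dd x w = 1) (hyw : dd y w = 1) {i : ι}
    (hne : f x i ≠ f y i) (heq : ∀ j, j ≠ i → f x j = f y j) : Dir G f i x w := by
  obtain ⟨j, hj⟩ := exists_Dir hadj hxw
  obtain ⟨k, hk⟩ := exists_Dir hadj hyw
  by_cases hij : j = i
  · rw [← hij]
    exact hj
  exfalso
  have h1 : k = i := by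
    by_contra hki
    apply hne
    rw [hj.2 i (Ne.symm hij), hk.2 i (fun h => hki h.symm)]
  have h2 : k = j := by
    by_contra hkj
    apply hj.1.ne
    rw [heq j hij]
    exact hk.2 j (fun h => hkj h.symm)
  exact hij (h2 ▸ h1)

end emb

section cox

universe u v

variable {ι : Type u} {P : ι → Type v} {G : ∀ i, SimpleGraph (P i)} {f : Fin 32 → ∀ i, P i}
  (hinj : Function.Injective f)
  (hadj : ∀ a b, (cartProd G).Adj (f a) (f b) ↔ dd a b = 1)
  (hconv : IsConvexSet (cartProd G) (Set.range f))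
  {i : ι} {B W : Type*} [Group W] {M : CoxeterMatrix B} {cs : CoxeterSystem M W}
  (e : G i ≃g coxeterGraph cs)

lemma label {a b : Fin 32} (h : Dir G f i a b) : ∃ s, e (f b i) = e (f a i) * cs.simple s :=
  (e.map_adj_iff.2 h.1)

lemma adj_of_label {p q : P i} {s : B} (h : e q = e p * cs.simple s) : (G i).Adj p q :=
  e.map_adj_iff.1 ⟨s, h⟩

include hinj in
lemma ne_of_agree {a b : Fin 32} (hab : a ≠ b) (h : ∀ j, j ≠ i → f a j = f b j) :
    e (f a i) ≠ e (f b i) := by
  intro h1
  apply hab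
  apply hinj
  funext j
  by_cases hj : j = i
  · subst hj
    exact e.injective h1
  · exact h j hj

include hinj hadj hconv in
/-- Transport of labels to the opposite side of a six-cycle. -/
lemma hex_label {c0 c1 c2 c3 c4 c5 : Fin 32} (hx : Hex c0 c1 c2 c3 c4 c5)
    (h01 : Dir G f i c0 c1) {a : B} (ha : e (f c1 i) = e (f c0 i) * cs.simple a) :
    Dir G f i c0 c5 ∧ Dir G f i c1 c2 ∧ Dir G f i c5 c4 ∧
      e (f c4 i) = e (f c5 i) * cs.simple a := by
  classical
  obtain ⟨⟨d01, d12, d23, d50, d45, d34⟩, ⟨n15, n03, m03, n53, m53, n02, n13, n24, n40⟩,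
    u0, u1, u2, u3, u4⟩ := hx
  have h05 : Dir G f i c0 c5 := same_dir hinj hadj hconv (by rw [dd_comm]; exact d50) n15 u0 h01
  have h12 : Dir G f i c1 c2 := same_dir hinj hadj hconv d12 n02 u1 h01.symm
  have h23 : Dir G f i c2 c3 := same_dir hinj hadj hconv d23 n13 u2 h12.symm
  have h34 : Dir G f i c3 c4 := same_dir hinj hadj hconv d34 n24 u3 h23.symm
  have h45 : Dir G f i c4 c5 := same_dir hinj hadj hconv d45 (Ne.symm m53) u4 h34.symm
  refine ⟨h05, h12, h45.symm, ?_⟩
  obtain ⟨b, hb⟩ := label e h05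
  obtain ⟨b', hb'⟩ := label e h45.symm
  obtain ⟨b'', hb''⟩ := label e h34.symm
  obtain ⟨a', ha'⟩ := label e h12
  obtain ⟨a'', ha''⟩ := label e h23
  have e1 : e (f c3 i) = e (f c0 i) * (cs.simple a * cs.simple a' * cs.simple a'') := by
    rw [ha'', ha', ha]
    group
  have e2 : e (f c3 i) = e (f c0 i) * (cs.simple b * cs.simple b' * cs.simple b'') := by
    rw [hb'', hb', hb]
    group
  have heq := mul_left_cancel (e1.symm.trans e2)
  have agree03 : ∀ j, j ≠ i → f c0 j = f c3 j := fun j hj => by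
    rw [h01.2 j hj, h12.2 j hj, h23.2 j hj]
  have hab : cs.simple a ≠ cs.simple b := by
    intro h
    apply ne_of_agree hinj e n15 (fun j hj => by rw [← h01.2 j hj, ← h05.2 j hj])
    rw [ha, hb, h]
  obtain ⟨x, hx⟩ := cox_hex cs a a' a'' b b' b'' heq hab (by
    intro d hd
    apply n03
    rw [hd] at e1
    exact (hadj c0 c3).1 ⟨i, adj_of_label e e1, agree03⟩)
  rw [hx] at e1
  -- the vertex reached from `c5` by the label `a`
  obtain ⟨p, hp⟩ := e.surjective (e (f c5 i) * cs.simple a)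
  have hA : (cartProd G).Adj (f c5) (Function.update (f c5) i p) := by
    refine ⟨i, ?_, fun k hk => by rw [Function.update_of_ne hk]⟩
    rw [Function.update_self]
    exact adj_of_label e hp
  have hB : (cartProd G).Adj (Function.update (f c5) i p) (f c3) := by
    refine ⟨i, ?_, fun k hk => ?_⟩
    · rw [Function.update_self]
      apply adj_of_label e (s := x)
      rw [e1, hp, hb]
      group
    · rw [Function.update_of_ne hk, ← h05.2 k hk, agree03 k hk]
  obtain ⟨z, hz, hz1, hz2⟩ := common_mem hinj hadj hconv m53 n53 hA hB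
  have h3 := u4 z hz2 hz1
  subst h3
  rw [hz, Function.update_self, hp]

include hinj hadj in
/-- Labels at a corner of a four-cycle commute. -/
lemma square_label {c0 c1 c2 c3 : Fin 32} (h01 : Dir G f i c0 c1) (h03 : Dir G f i c0 c3)
    (d12 : dd c1 c2 = 1) (d32 : dd c3 c2 = 1) (n13 : c1 ≠ c3) (n02 : c0 ≠ c2) {a b : B}
    (ha : e (f c1 i) = e (f c0 i) * cs.simple a) (hb : e (f c3 i) = e (f c0 i) * cs.simple b) :
    cs.simple a * cs.simple b = cs.simple b * cs.simple a := by
  have agree : ∀ j, j ≠ i → f c1 j = f c3 j := fun j hj => by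
    rw [← h01.2 j hj, ← h03.2 j hj]
  have hne := ne_of_agree hinj e n13 agree
  have hne' : f c1 i ≠ f c3 i := fun h => hne (by rw [h])
  have h12 : Dir G f i c1 c2 := square_dir hadj d12 d32 hne' agree
  have h32 : Dir G f i c3 c2 :=
    square_dir hadj d32 d12 (Ne.symm hne') (fun j hj => (agree j hj).symm)
  obtain ⟨a', ha'⟩ := label e h12
  obtain ⟨b', hb'⟩ := label e h32
  have e1 : e (f c2 i) = e (f c0 i) * (cs.simple a * cs.simple a') := by
    rw [ha', ha]
    group
  have e2 : e (f c2 i) = e (f c0 i) * (cs.simple b * cs.simple b') := by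
    rw [hb', hb]
    group
  have heq := mul_left_cancel (e1.symm.trans e2)
  apply cox_sq cs a a' b b' heq
  · intro h
    apply hne
    rw [ha, hb, h]
  · intro h
    rw [h, mul_one] at e1
    exact ne_of_agree hinj e n02 (fun j hj => by rw [h01.2 j hj, h12.2 j hj]) e1.symm

include hinj hadj hconv e in
lemma no_cox (h01 : Dir G f i 0 1) : False := by
  have H1 : Hex 0 1 4 6 5 2 := by decide +kernel
  have H1' : Hex 0 2 5 6 4 1 := by decide +kernel
  have H2 : Hex 0 1 7 9 8 3 := by decide +kernel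
  have H2' : Hex 0 3 8 9 7 1 := by decide +kernel
  have H3 : Hex 0 2 11 13 12 3 := by decide +kernel
  have H3' : Hex 0 3 12 13 11 2 := by decide +kernel
  have H4 : Hex 2 0 3 12 13 11 := by decide +kernel
  have H5 : Hex 3 0 2 11 13 12 := by decide +kernel
  obtain ⟨a1, ha1⟩ := label e h01
  obtain ⟨h02, -, -, -⟩ := hex_label hinj hadj hconv e H1 h01 ha1
  obtain ⟨h03, -, -, -⟩ := hex_label hinj hadj hconv e H2 h01 ha1
  obtain ⟨a2, ha2⟩ := label e h02
  obtain ⟨a3, ha3⟩ := label e h03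
  obtain ⟨-, -, h14, l4⟩ := hex_label hinj hadj hconv e H1' h02 ha2
  obtain ⟨-, -, h17, l7⟩ := hex_label hinj hadj hconv e H2' h03 ha3
  have hcomm := square_label (c2 := 10) hinj hadj e h14 h17 (by decide +kernel)
    (by decide +kernel) (by decide) (by decide) l4 l7
  obtain ⟨-, -, -, l12⟩ := hex_label hinj hadj hconv e H3 h02 ha2
  obtain ⟨-, -, -, l11⟩ := hex_label hinj hadj hconv e H3' h03 ha3
  have ha2' : e (f 0 i) = e (f 2 i) * cs.simple a2 := by
    rw [ha2, cs.simple_mul_simple_cancel_right]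
  have ha3' : e (f 0 i) = e (f 3 i) * cs.simple a3 := by
    rw [ha3, cs.simple_mul_simple_cancel_right]
  obtain ⟨-, -, -, l13⟩ := hex_label hinj hadj hconv e H4 h02.symm ha2'
  obtain ⟨-, -, -, l13'⟩ := hex_label hinj hadj hconv e H5 h03.symm ha3'
  rw [l11, ha2] at l13
  rw [l12, ha3, l13] at l13'
  have h1 : cs.simple a2 * cs.simple a3 * cs.simple a2 =
      cs.simple a3 * cs.simple a2 * cs.simple a3 := by
    apply mul_left_cancel (a := e (f 0 i))
    simpa only [mul_assoc] using l13'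
  rw [hcomm, cs.simple_mul_simple_cancel_right, ← hcomm, cs.simple_mul_simple_cancel_right] at h1
  have h2 : f 2 = f 3 := by
    funext j
    by_cases hj : j = i
    · subst hj
      apply e.injective
      rw [ha2, ha3, h1]
    · rw [← h02.2 j hj, ← h03.2 j hj]
  exact absurd (hinj h2) (by decide)

end cox

section main

universe u v w

variable {ι : Type u} {P : ι → Type v} {G : ∀ i, SimpleGraph (P i)} {f : Fin 32 → ∀ i, P i}
  (hinj : Function.Injective f)
  (hadj : ∀ a b, (cartProd G).Adj (f a) (f b) ↔ dd a b = 1)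
  (hconv : IsConvexSet (cartProd G) (Set.range f))

include hinj hadj hconv in
lemma no_embedding (hG : ∀ i, G i = ⊤ ∨ IsFiniteCoxeterGraph.{v, w} (G i)) : False := by
  obtain ⟨i, h01⟩ := exists_Dir hadj (show dd 0 1 = 1 by decide +kernel)
  have h02 : Dir G f i 0 2 := same_dir hinj hadj hconv (by decide +kernel) (x := 1) (by decide)
    (by decide +kernel) h01
  rcases hG i with hi | ⟨B, M, W, hW, cs, -, ⟨e⟩⟩
  · have h12 : dd 1 2 = 1 := by
      apply (hadj 1 2).1
      refine ⟨i, ?_, fun j hj => by rw [← h01.2 j hj, ← h02.2 j hj]⟩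
      rw [hi, SimpleGraph.top_adj]
      intro h
      have h3 : f 1 = f 2 := by
        funext j
        by_cases hj : j = i
        · subst hj
          exact h
        · rw [← h01.2 j hj, ← h02.2 j hj]
      exact absurd (hinj h3) (by decide)
    exact absurd h12 (by decide +kernel)
  · exact no_cox hinj hadj hconv e h01

end main

/-- No convex subgraph of a Cartesian product of complete graphs and finite Coxeter graphs is
isomorphic to the tope graph. -/
theorem no_iso.{u, v, w} (ι : Type u) (P : ι → Type v) (G : ∀ i, SimpleGraph (P i))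
    (hG : ∀ i, G i = ⊤ ∨ IsFiniteCoxeterGraph.{v, w} (G i)) (S : Set (∀ i, P i))
    (hS : IsConvexSet (cartProd G) S) :
    IsEmpty (topeGraph.induce Set.univ ≃g (cartProd G).induce S) := by
  refine ⟨fun φ => ?_⟩
  have hr : Set.range (fun a : Fin 32 => ((φ ⟨a, Set.mem_univ a⟩ : S) : ∀ i, P i)) = S := by
    ext p
    constructor
    · rintro ⟨a, rfl⟩
      exact (φ ⟨a, Set.mem_univ a⟩).2
    · intro hp
      refine ⟨(φ.symm ⟨p, hp⟩).1, ?_⟩
      show ((φ (φ.symm ⟨p, hp⟩) : S) : ∀ i, P i) = p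
      rw [φ.apply_symm_apply]
  refine no_embedding (f := fun a => ((φ ⟨a, Set.mem_univ a⟩ : S) : ∀ i, P i)) ?_ ?_ ?_ hG
  · intro a b h
    have h1 := φ.injective (Subtype.ext h)
    exact congrArg Subtype.val h1
  · intro a b
    have h1 := φ.map_adj_iff (v := ⟨a, Set.mem_univ a⟩) (w := ⟨b, Set.mem_univ b⟩)
    exact h1
  · rw [hr]
    exact hS

end Pool.Agent.R25.Med
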