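import Pool.Agent.R25.Med.Arr

set_option autoImplicit false

namespace Pool.Agent.R25.Med

/-- The distance table as one number. -/
def tab : ℕ :=
  103948363504464107914651709798682033633701125781096238177884775382429604289573525860569213044109934693358816750850165337196041928150386167714056850454051156049882336585400219860095968494109494014349754610770458144532212129229818655057945850310290132352946101070306758019020767419085783712883777118810561047612168240346295262984520798085031457688554471148007483078806319726022412075882584167864903133345466521059843307570778510273563592523149529282604620183928088964128666128518641888346398996388935324837581506967313173576728681949696263627033175417766237692253619486551240885879235697716276046299984712159270447291915674451983502014666551860241316656850707524241087198227668508632428614048141674136424111619328618808237059482992309300833320928049510257465233599589273757734847980868660516070405197700005596038554045571640472999098050241171538299008725275145440811319876819987585220113476496173911235747438878382342628254280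

def df (a b : ℕ) : ℕ := (tab >>> (3 * (32 * a + b))) % 8

lemma dd_fast : ∀ a b : Fin 32, dd a b = df a.val b.val := by decide +kernel

end Pool.Agent.R25.Med
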