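import Pool.Agent.R25.Med.Chk

set_option autoImplicit false

namespace Pool.Agent.R25.Med

lemma bip : ∀ x y : Fin 32, dd x y = 1 → ∀ o : Fin 32, dd o x ≠ dd o y := by
  simp only [dd_fast]
  decide +kernel

lemma three : ∀ z : Fin 32, ∃ u : Fin 32, dd z u = 1 ∧ ∃ v : Fin 32, dd z v = 1 ∧ u ≠ v ∧
    ∃ w : Fin 32, dd z w = 1 ∧ u ≠ w ∧ v ≠ w := by
  simp only [dd_fast]
  decide +kernel

lemma third (z a b : Fin 32) : ∃ w : Fin 32, dd z w = 1 ∧ w ≠ a ∧ w ≠ b := by
  obtain ⟨u, hu, v, hv, huv, w, hw, huw, hvw⟩ := three z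
  by_cases h1 : u ≠ a ∧ u ≠ b
  · exact ⟨u, hu, h1⟩
  by_cases h2 : v ≠ a ∧ v ≠ b
  · exact ⟨v, hv, h2⟩
  refine ⟨w, hw, ?_, ?_⟩
  · rintro rfl
    push Not at h1 h2
    exact huv ((h1 huw).trans (h2 hvw).symm)
  · rintro rfl
    apply huv
    have h3 : u = a := by
      by_contra h
      exact h1 ⟨h, huw⟩
    have h4 : v = a := by
      by_contra h
      exact h2 ⟨h, hvw⟩
    rw [h3, h4]

section cyc

variable {k : ℕ} {c : ZMod (2 * k) → Fin 32}

lemma one_ne_neg_one (hk : 2 ≤ k) : (1 : ZMod (2 * k)) ≠ -1 := by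
  have : NeZero (2 * k) := ⟨by omega⟩
  intro h
  have h1 : ((2 : ℕ) : ZMod (2 * k)) = 0 := by
    have h2 : (1 : ZMod (2 * k)) + 1 = 0 := by
      nth_rewrite 1 [h]
      ring
    push_cast
    rw [← h2]
    ring
  rw [ZMod.natCast_eq_zero_iff] at h1
  have := Nat.le_of_dvd (by omega) h1
  omega

/-- Every convex even cycle has one of the 18 listed vertex sets. -/
lemma exists_mask (h : IsConvexEvenCycle topeGraph k c) :
    ∃ t : Fin 18, ∀ z : Fin 32, (mask t).testBit z.val = true ↔ z ∈ Set.range c := by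
  have hk := h.two_le
  have ha : dd (c 0) (c 1) = 1 := by
    have := adj_succ h 0
    rwa [zero_add] at this
  have hb : dd (c 0) (c (-1)) = 1 := by
    have := adj_succ h (-1)
    rw [neg_add_cancel, dd_comm] at this
    exact this
  have hne : c 1 ≠ c (-1) := fun he => one_ne_neg_one hk (h.inj he)
  have h1 := (mem_range_iff h (c 1)).1 ⟨1, rfl⟩
  have h2 := (mem_range_iff h (c (-1))).1 ⟨-1, rfl⟩
  obtain ⟨t, ht⟩ := mask_spec (c 0) (c 1) ha (c (-1)) hb hne (c k) h1 h2 (by
    intro z hz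
    obtain ⟨i, rfl⟩ := (mem_range_iff h z).2 hz
    obtain ⟨w, hw, hwa, hwb⟩ := third (c i) (c (i + 1)) (c (i - 1))
    refine ⟨w, hw, fun hc => ?_⟩
    obtain ⟨j, rfl⟩ := (mem_range_iff h w).2 hc
    rcases (h.adj_iff i j).1 hw with rfl | rfl
    · exact hwa rfl
    · apply hwb
      congr 1
      ring)
  exact ⟨t, fun z => (ht z).trans (mem_range_iff h z).symm⟩

end cyc

lemma topeGraph_mediangle : IsMediangle topeGraph where
  connected := connected
  triangle := by
    intro o x y h hxy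
    exfalso
    rw [edist_eq, edist_eq] at h
    exact bip x y hxy o (by exact_mod_cast h)
  no_K4_minus := by
    rintro ⟨a, b, c, d, -, -, hac, had, -, -, hcd⟩
    have h1 : dd a c = 1 := hac
    have h2 : dd a d = 1 := had
    exact bip c d hcd a (by omega)
  cycle := by
    intro o x y z hxy h1 h2 hx hy
    rw [edist_eq, edist_eq] at h1 h2
    have h1' : dd o x + 1 = dd o z := by exact_mod_cast h1
    have h2' : dd o y + 1 = dd o z := by exact_mod_cast h2
    rcases corner z x hx y hy hxy with ⟨t, s, e, e0, e1, e3, ho⟩ | ⟨t, s, e, e0, e1, e5, ho⟩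
    · refine ⟨2, toC4 (cy4 t s e), cy4_cycle t s e, e0, e1, e3, ?_, ?_⟩
      · rw [mem_interval]
        exact (ho o h1' h2').1
      · rw [mem_interval]
        exact (ho o h1' h2').2
    · refine ⟨3, toC6 (cy6 t s e), cy6_cycle t s e, e0, e1, e5, ?_, ?_⟩
      · rw [mem_interval]
        exact (ho o h1' h2').1
      · rw [mem_interval]
        exact (ho o h1' h2').2
  cycles_meet := by
    intro k c k' c' h h' hne
    obtain ⟨t, ht⟩ := exists_mask h
    obtain ⟨t', ht'⟩ := exists_mask h'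
    have htt : t ≠ t' := by
      rintro rfl
      apply hne
      ext e
      induction e using Sym2.ind with
      | _ a b =>
        rw [mem_cycleEdges h, mem_cycleEdges h', ← ht a, ← ht b, ← ht' a, ← ht' b]
    rintro e ⟨he, he'⟩ f ⟨hf, hf'⟩
    induction e using Sym2.ind with
    | _ a b =>
      induction f using Sym2.ind with
      | _ p q =>
        rw [mem_cycleEdges h, ← ht a, ← ht b] at he
        rw [mem_cycleEdges h', ← ht' a, ← ht' b] at he'
        rw [mem_cycleEdges h, ← ht p, ← ht q] at hf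
        rw [mem_cycleEdges h', ← ht' p, ← ht' q] at hf'
        obtain ⟨hab, ha, hb⟩ := he
        obtain ⟨-, ha', hb'⟩ := he'
        obtain ⟨hpq, hp, hq⟩ := hf
        obtain ⟨-, hp', hq'⟩ := hf'
        have hab' : a ≠ b := by
          rintro rfl
          rw [dd_self] at hab
          omega
        have hpq' : p ≠ q := by
          rintro rfl
          rw [dd_self] at hpq
          omega
        have h3 : ∀ r, (mask t).testBit r.val = true → (mask t').testBit r.val = true →
            r = a ∨ r = b := by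
          intro r hr hr'
          by_cases hra : r = a
          · exact Or.inl hra
          · right
            exact (mask_meet t t' htt a ha ha' b hb hb' hab' r hr hr' (Ne.symm hra)).symm
        rw [Sym2.eq_iff]
        rcases h3 p hp hp' with rfl | rfl <;> rcases h3 q hq hq' with rfl | rfl
        · exact absurd rfl hpq'
        · exact Or.inl ⟨rfl, rfl⟩
        · exact Or.inr ⟨rfl, rfl⟩
        · exact absurd rfl hpq'

lemma eqv_rep (i : Fin 7) (n : ℕ) : ∀ a b : Fin 32, dd a (repA i) = n →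
    code a ^^^ code b = 2 ^ i.val → code a < code b →
    Relation.EqvGen (HypStep topeGraph) s(a, b) s(repA i, repB i) := by
  induction n using Nat.strong_induction_on with
  | _ n ih =>
    intro a b hn hi hlt
    rcases toRep i a b hi hlt with ⟨rfl, rfl⟩ | ⟨t, s, e, e0, e1, h1, h2, h3⟩ |
      ⟨t, s, e, e0, e1, h1, h2, h3⟩
    · exact Relation.EqvGen.refl _
    · refine Relation.EqvGen.trans _ s(cy4 t s e 3, cy4 t s e 2) _ ?_ (ih _ (hn ▸ h3) _ _ rfl h1 h2)
      refine Relation.EqvGen.rel _ _ (Or.inr ⟨2, toC4 (cy4 t s e), cy4_cycle t s e, 0, ?_, ?_⟩)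
      · rw [← e0, ← e1]
        rfl
      · rw [Sym2.eq_swap]
        rfl
    · refine Relation.EqvGen.trans _ s(cy6 t s e 4, cy6 t s e 3) _ ?_ (ih _ (hn ▸ h3) _ _ rfl h1 h2)
      refine Relation.EqvGen.rel _ _ (Or.inr ⟨3, toC6 (cy6 t s e), cy6_cycle t s e, 0, ?_, ?_⟩)
      · rw [← e0, ← e1]
        rfl
      · rw [Sym2.eq_swap]
        rfl

lemma eqv_rep' (i : Fin 7) (a b : Fin 32) (h : code a ^^^ code b = 2 ^ i.val) :
    Relation.EqvGen (HypStep topeGraph) s(a, b) s(repA i, repB i) := by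
  rcases Nat.lt_trichotomy (code a) (code b) with h1 | h1 | h1
  · exact eqv_rep i _ a b rfl h h1
  · rw [h1, Nat.xor_self] at h
    have : 0 < 2 ^ i.val := by positivity
    omega
  · rw [Sym2.eq_swap]
    rw [Nat.xor_comm] at h
    exact eqv_rep i _ b a rfl h h1

lemma hyp_of_dir (i : Fin 7) (a b a' b' : Fin 32) (h : code a ^^^ code b = 2 ^ i.val)
    (h' : code a' ^^^ code b' = 2 ^ i.val) :
    Relation.EqvGen (HypStep topeGraph) s(a, b) s(a', b') :=
  Relation.EqvGen.trans _ _ _ (eqv_rep' i a b h) (Relation.EqvGen.symm _ _ (eqv_rep' i a' b' h'))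

lemma dd_of_dir : ∀ i : Fin 7, ∀ a b : Fin 32, code a ^^^ code b = 2 ^ i.val → dd a b = 1 := by
  simp only [dd_fast, code_fast]
  decide +kernel

lemma mem_hyperplane (i : Fin 7) (a b a' b' : Fin 32) (h : code a ^^^ code b = 2 ^ i.val)
    (h' : code a' ^^^ code b' = 2 ^ i.val) : s(a', b') ∈ hyperplane topeGraph s(a, b) :=
  ⟨dd_of_dir i a' b' h', hyp_of_dir i a b a' b' h h'⟩

lemma topeGraph_monolith : IsMonolith topeGraph Set.univ := by
  constructor
  · intro x
    refine ⟨x, Set.mem_univ _, fun z _ => ?_⟩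
    rw [mem_interval, dd_self, zero_add]
  · rintro _ ⟨a, -, b, -, hab, rfl⟩ _ ⟨a', -, b', -, hab', rfl⟩ hne
    obtain ⟨i, hi, -⟩ := exists_dir a b hab
    obtain ⟨j, hj, -⟩ := exists_dir a' b' hab'
    have hij : i ≠ j := by
      rintro rfl
      apply hne
      have h1 := hyp_of_dir i a b a' b' hi hj
      ext e
      constructor
      · rintro ⟨he, he'⟩
        exact ⟨he, Relation.EqvGen.trans _ _ _ (Relation.EqvGen.symm _ _ h1) he'⟩
      · rintro ⟨he, he'⟩
        exact ⟨he, Relation.EqvGen.trans _ _ _ h1 he'⟩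
    rcases trans_dir i j hij with ⟨t, s, e, h1, h2⟩ | ⟨t, s, e, h1, h2⟩
    · exact ⟨2, toC4 (cy4 t s e), cy4_cycle t s e, 0, Or.inl
        ⟨mem_hyperplane i a b _ _ hi h1, mem_hyperplane j a' b' _ _ hj h2⟩⟩
    · exact ⟨3, toC6 (cy6 t s e), cy6_cycle t s e, 0, Or.inl
        ⟨mem_hyperplane i a b _ _ hi h1, mem_hyperplane j a' b' _ _ hj h2⟩⟩

end Pool.Agent.R25.Med
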